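import Pool.Agent.Helper86.Pic.ALG
import Pool.Agent.Helper86.Pic.RED

set_option autoImplicit false

/-! # Module DISC: discreteness and partition of unity -/

namespace Pool.Agent.Helper76.Pic

open MeasureTheory Topology Set
open scoped ComplexConjugate
open Pool.Agent.Helper10.Pic
open Pool.Agent.Helper86.Pic (herm_vec vec_act act_mem act_mul uval_act uval_w0 uval_pos
  Eis_one x3_ne eis_norm eis_finite)

/-! ### coordinates of the lattice -/

theorem eis_fin (M : ℝ) : {x : ℂ | x ∈ Eis ∧ ‖x‖ ≤ M}.Finite := by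
  refine (eis_finite 0 M).subset ?_
  rintro x ⟨h1, h2⟩
  refine ⟨h1, ?_⟩
  rw [zero_sub, norm_neg]
  exact h2

theorem lat_finite (M : ℝ) :
    {x : V3 | x ∈ lat3 ∧ ‖x.1‖ ≤ M ∧ ‖x.2.1‖ ≤ M ∧ ‖x.2.2‖ ≤ M}.Finite := by
  have h1 := eis_fin M
  refine (h1.prod (h1.prod h1)).subset ?_
  rintro ⟨a, b, c⟩ ⟨⟨ha, hb, hc⟩, h2, h3, h4⟩
  exact ⟨⟨ha, h2⟩, ⟨hb, h3⟩, ⟨hc, h4⟩⟩

/-! ### the images of the basis determine the transformation -/

/-- the images of the basis vectors -/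
noncomputable def img (g : V3 ≃ₗ[ℂ] V3) : V3 × V3 × V3 :=
  (g (1, 0, 0), g (0, 1, 0), g (0, 0, 1))

theorem img_injective : Function.Injective img := by
  intro g h hgh
  have h1 : g (1, 0, 0) = h (1, 0, 0) := congrArg Prod.fst hgh
  have h2 : g (0, 1, 0) = h (0, 1, 0) := congrArg (fun x => x.2.1) hgh
  have h3 : g (0, 0, 1) = h (0, 0, 1) := congrArg (fun x => x.2.2) hgh
  apply LinearEquiv.ext
  intro x
  have hx : x = x.1 • ((1, 0, 0) : V3) + x.2.1 • ((0, 1, 0) : V3) +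
      x.2.2 • ((0, 0, 1) : V3) := by
    refine Prod.ext ?_ (Prod.ext ?_ ?_)
    · simp
    · simp
    · simp
  rw [hx, map_add, map_add, map_smul, map_smul, map_smul, map_add, map_add, map_smul, map_smul,
    map_smul, h1, h2, h3]

theorem img_mem {g : V3 ≃ₗ[ℂ] V3} (hg : g ∈ Gam) :
    (img g).1 ∈ lat3 ∧ (img g).2.1 ∈ lat3 ∧ (img g).2.2 ∈ lat3 :=
  ⟨(hg.2 _).mpr ⟨Eis_one, Eis.zero_mem, Eis.zero_mem⟩,
    (hg.2 _).mpr ⟨Eis.zero_mem, Eis_one, Eis.zero_mem⟩,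
    (hg.2 _).mpr ⟨Eis.zero_mem, Eis.zero_mem, Eis_one⟩⟩

theorem lat_countable : lat3.Countable := by
  have h1 : lat3 = ⋃ N : ℕ, {x : V3 | x ∈ lat3 ∧ ‖x.1‖ ≤ N ∧ ‖x.2.1‖ ≤ N ∧ ‖x.2.2‖ ≤ N} := by
    ext x
    simp only [mem_iUnion]
    constructor
    · intro hx
      obtain ⟨N, hN⟩ := exists_nat_ge (‖x.1‖ + ‖x.2.1‖ + ‖x.2.2‖)
      have h1 := norm_nonneg x.1
      have h2 := norm_nonneg x.2.1
      have h3 := norm_nonneg x.2.2
      exact ⟨N, hx, by linarith, by linarith, by linarith⟩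
    · rintro ⟨N, hx, -⟩
      exact hx
  rw [h1]
  exact countable_iUnion fun N => (lat_finite N).countable

theorem countable_Gam : Countable Gam := by
  have h1 := lat_countable
  have h2 : (lat3 ×ˢ lat3 ×ˢ lat3).Countable := h1.prod (h1.prod h1)
  have h3 : ((Gam : Set (V3 ≃ₗ[ℂ] V3))).Countable := by
    refine Set.MapsTo.countable_of_injOn (f := img) ?_ img_injective.injOn h2
    intro g hg
    exact img_mem hg
  exact h3.to_subtype

/-! ### the positive definite form of a point -/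

/-- the positive definite form -/
noncomputable def Qf (q : Pt) (x : V3) : ℝ := (herm x x).re + 2 * uval x q

theorem herm_re (q : Pt) (x : V3) :
    (herm x x).re = ‖x.2.1 - q.2 * x.2.2‖ ^ 2 + hgt q * ‖x.2.2‖ ^ 2 +
      2 * (herm (vec q) x * x.2.2).re := by
  simp only [hgt, herm, vec, Complex.sq_norm, Complex.normSq_apply]
  simp
  ring

theorem Qf_eq {q : Pt} (hq : q ∈ SD) (x : V3) :
    Qf q x = ‖x.2.1 - q.2 * x.2.2‖ ^ 2 + hgt q / 2 * ‖x.2.2‖ ^ 2 +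
      ‖(hgt q : ℂ) * x.2.2 + 2 * conj (herm (vec q) x)‖ ^ 2 / (2 * hgt q) := by
  have hu : 0 < hgt q := hq
  have h1 : ‖(hgt q : ℂ) * x.2.2 + 2 * conj (herm (vec q) x)‖ ^ 2 =
      hgt q ^ 2 * ‖x.2.2‖ ^ 2 + 4 * hgt q * (herm (vec q) x * x.2.2).re +
        4 * ‖herm (vec q) x‖ ^ 2 := by
    simp only [Complex.sq_norm, Complex.normSq_apply]
    simp
    ring
  unfold Qf uval
  rw [h1, herm_re q]
  field_simp
  ring

theorem Qf_eq' {q : Pt} (hq : q ∈ SD) (x : V3) :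
    Qf q x = ‖x.2.1 - q.2 * x.2.2‖ ^ 2 + ‖herm (vec q) x‖ ^ 2 / hgt q +
      ‖(hgt q : ℂ) * x.2.2 + conj (herm (vec q) x)‖ ^ 2 / hgt q := by
  have hu : 0 < hgt q := hq
  have h1 : ‖(hgt q : ℂ) * x.2.2 + conj (herm (vec q) x)‖ ^ 2 =
      hgt q ^ 2 * ‖x.2.2‖ ^ 2 + 2 * hgt q * (herm (vec q) x * x.2.2).re +
        ‖herm (vec q) x‖ ^ 2 := by
    simp only [Complex.sq_norm, Complex.normSq_apply]
    simp
    ring
  unfold Qf uval
  rw [h1, herm_re q]
  field_simp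
  ring

theorem Qf_act {g : V3 ≃ₗ[ℂ] V3} (hg : g ∈ UG) {q : Pt} (hq : q ∈ SD) (x : V3) :
    Qf (act g q) (g x) = Qf q x := by
  have key : g⁻¹ (g x) = x := g.symm_apply_apply x
  unfold Qf
  rw [uval_act hg _ hq, key, hg]

theorem eis_one_le {x : ℂ} (hx : x ∈ Eis) (h0 : x ≠ 0) : 1 ≤ ‖x‖ := by
  obtain ⟨a, b, rfl⟩ := hx
  have h1 := eis_norm a b
  have h2 : 0 < ‖(a : ℂ) + b * om‖ ^ 2 := pow_pos (norm_pos_iff.2 h0) 2
  rw [h1] at h2
  have h3 : (0 : ℤ) < a ^ 2 - a * b + b ^ 2 := by exact_mod_cast h2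
  have h4 : (1 : ℝ) ≤ ((a ^ 2 - a * b + b ^ 2 : ℤ) : ℝ) := by exact_mod_cast h3
  rw [← h1] at h4
  nlinarith [norm_nonneg ((a : ℂ) + b * om)]

theorem uval_lower {w : V3} (hw : w ∈ Orb) {q : Pt} (hq : q ∈ SD) :
    min (1 / hgt q) (hgt q / 4) ≤ uval w q := by
  have hu : 0 < hgt q := hq
  have hpos := uval_pos hw hq
  obtain ⟨γ, hγ, rfl⟩ := hw
  have hlat : γ w0 ∈ lat3 := (hγ.2 _).mpr ⟨Eis_one, Eis.zero_mem, Eis.zero_mem⟩
  have hiso : (herm (γ w0) (γ w0)).re = 0 := by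
    rw [hγ.1]
    simp [herm, w0]
  set w := γ w0 with hw
  obtain ⟨h1, h2, h3⟩ := hlat
  have hre := herm_re q w
  rw [hiso] at hre
  by_cases hw3 : w.2.2 = 0
  · have hw2 : w.2.1 = 0 := by
      rw [hw3] at hre
      simp at hre
      exact norm_eq_zero.1 (pow_eq_zero_iff two_ne_zero |>.1 hre.symm)
    have hD : herm (vec q) w = conj w.1 := by
      simp [herm, vec, hw3, hw2]
    have hw1 : w.1 ≠ 0 := by
      intro h
      rw [uval, hD, h] at hpos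
      simp at hpos
    have h4 := eis_one_le h1 hw1
    refine (min_le_left _ _).trans ?_
    rw [uval, hD, Complex.norm_conj]
    gcongr
    nlinarith
  · have h4 := eis_one_le h3 hw3
    refine (min_le_right _ _).trans ?_
    have h5 : -(‖herm (vec q) w‖ * ‖w.2.2‖) ≤ (herm (vec q) w * w.2.2).re := by
      have := (abs_le.1 (Complex.abs_re_le_norm (herm (vec q) w * w.2.2))).1
      rwa [norm_mul] at this
    have h6 : 0 ≤ ‖w.2.1 - q.2 * w.2.2‖ ^ 2 := sq_nonneg _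
    have h7 : hgt q * ‖w.2.2‖ * ‖w.2.2‖ ≤ 2 * ‖herm (vec q) w‖ * ‖w.2.2‖ := by nlinarith
    have h8 : hgt q * ‖w.2.2‖ ≤ 2 * ‖herm (vec q) w‖ :=
      le_of_mul_le_mul_right h7 (by linarith)
    have h9 : hgt q ≤ 2 * ‖herm (vec q) w‖ := by nlinarith
    rw [uval, le_div_iff₀ hu]
    nlinarith

theorem Qf_bound {q : Pt} {C a H K : ℝ} (ha : 0 < a) (hq : q ∈ Sieg C a)
    (hH : hgt q ≤ H) {y : V3} (hK : 0 ≤ K) (hy : Qf q y ≤ K) :
    ‖y.2.2‖ ≤ Real.sqrt (2 * K / a) ∧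
    ‖y.2.1‖ ≤ Real.sqrt K + C * Real.sqrt (2 * K / a) ∧
    ‖y.1‖ ≤ Real.sqrt (K * H) + ((H + C ^ 2) / 2 + C) * Real.sqrt (2 * K / a) +
      C * (Real.sqrt K + C * Real.sqrt (2 * K / a)) := by
  obtain ⟨hq1, hq2, hq3⟩ := hq
  have hu : 0 < hgt q := by linarith
  have hC0 : 0 ≤ C := (norm_nonneg _).trans hq1
  have e1 := Qf_eq (show q ∈ SD from hu) y
  have e2 := Qf_eq' (show q ∈ SD from hu) y
  have t1 : 0 ≤ ‖y.2.1 - q.2 * y.2.2‖ ^ 2 := sq_nonneg _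
  have t2 : 0 ≤ hgt q / 2 * ‖y.2.2‖ ^ 2 := by positivity
  have t3 : 0 ≤ ‖(hgt q : ℂ) * y.2.2 + 2 * conj (herm (vec q) y)‖ ^ 2 / (2 * hgt q) := by
    positivity
  have t4 : 0 ≤ ‖(hgt q : ℂ) * y.2.2 + conj (herm (vec q) y)‖ ^ 2 / hgt q := by positivity
  have t5 : 0 ≤ ‖herm (vec q) y‖ ^ 2 / hgt q := by positivity
  have f3 : ‖y.2.2‖ ≤ Real.sqrt (2 * K / a) := by
    apply Real.le_sqrt_of_sq_le
    rw [le_div_iff₀ ha]
    have : ‖y.2.2‖ ^ 2 * a ≤ ‖y.2.2‖ ^ 2 * hgt q := by gcongr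
    linarith
  have f2' : ‖y.2.1 - q.2 * y.2.2‖ ≤ Real.sqrt K := by
    apply Real.le_sqrt_of_sq_le
    linarith
  have f2 : ‖y.2.1‖ ≤ Real.sqrt K + C * Real.sqrt (2 * K / a) := by
    have h1 : y.2.1 = (y.2.1 - q.2 * y.2.2) + q.2 * y.2.2 := by ring
    calc ‖y.2.1‖ = ‖(y.2.1 - q.2 * y.2.2) + q.2 * y.2.2‖ := by rw [← h1]
      _ ≤ ‖y.2.1 - q.2 * y.2.2‖ + ‖q.2 * y.2.2‖ := norm_add_le _ _
      _ ≤ Real.sqrt K + C * Real.sqrt (2 * K / a) := by
        rw [norm_mul]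
        gcongr
  have f4 : ‖herm (vec q) y‖ ≤ Real.sqrt (K * H) := by
    apply Real.le_sqrt_of_sq_le
    have : ‖herm (vec q) y‖ ^ 2 / hgt q ≤ K := by linarith
    rw [div_le_iff₀ hu] at this
    exact this.trans (mul_le_mul_of_nonneg_left hH hK)
  have fz : ‖q.1‖ ≤ (H + C ^ 2) / 2 + C := by
    have h1 : ‖q.1‖ ≤ |q.1.re| + |q.1.im| := Complex.norm_le_abs_re_add_abs_im _
    have h2 : |q.1.re| ≤ (H + C ^ 2) / 2 := by
      have h3 : q.1.re = -((hgt q + ‖q.2‖ ^ 2) / 2) := by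
        unfold hgt
        ring
      rw [h3, abs_neg, abs_of_nonneg (by positivity)]
      have : ‖q.2‖ ^ 2 ≤ C ^ 2 := by gcongr
      linarith
    linarith
  have hZ : 0 ≤ (H + C ^ 2) / 2 + C := (norm_nonneg _).trans fz
  refine ⟨f3, f2, ?_⟩
  have h1 : conj y.1 = herm (vec q) y - q.1 * conj y.2.2 - q.2 * conj y.2.1 := by
    simp only [herm, vec]
    ring
  calc ‖y.1‖ = ‖conj y.1‖ := (Complex.norm_conj _).symm
    _ = ‖herm (vec q) y - q.1 * conj y.2.2 - q.2 * conj y.2.1‖ := by rw [h1]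
    _ ≤ ‖herm (vec q) y - q.1 * conj y.2.2‖ + ‖q.2 * conj y.2.1‖ := norm_sub_le _ _
    _ ≤ ‖herm (vec q) y‖ + ‖q.1 * conj y.2.2‖ + ‖q.2 * conj y.2.1‖ := by
      gcongr
      exact norm_sub_le _ _
    _ ≤ _ := by
      rw [norm_mul, norm_mul, Complex.norm_conj, Complex.norm_conj]
      gcongr

/-! ### local finiteness -/

theorem Qf_bound' {C a H K : ℝ} (ha : 0 < a) (hK : 0 ≤ K) : ∃ M : ℝ,
    ∀ (q : Pt) (y : V3), q ∈ Sieg C a → hgt q ≤ H → Qf q y ≤ K →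
      ‖y.1‖ ≤ M ∧ ‖y.2.1‖ ≤ M ∧ ‖y.2.2‖ ≤ M := by
  refine ⟨max (Real.sqrt (2 * K / a)) (max (Real.sqrt K + C * Real.sqrt (2 * K / a))
      (Real.sqrt (K * H) + ((H + C ^ 2) / 2 + C) * Real.sqrt (2 * K / a) +
      C * (Real.sqrt K + C * Real.sqrt (2 * K / a)))), fun q y hq hH hy => ?_⟩
  obtain ⟨h1, h2, h3⟩ := Qf_bound ha hq hH hK hy
  exact ⟨h3.trans ((le_max_right _ _).trans (le_max_right _ _)),
    h2.trans ((le_max_left _ _).trans (le_max_right _ _)), h1.trans (le_max_left _ _)⟩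

theorem height_bound {r0 R : ℝ} (hr0 : 0 < r0) (hR : 0 < R) :
    ∃ H : ℝ, ∀ γ ∈ Gam, ∀ q : Pt, r0 ≤ hgt q → hgt q ≤ R → hgt (act γ q) ≤ H := by
  have hm0 : 0 < min (1 / R) (r0 / 4) := lt_min (by positivity) (by positivity)
  refine ⟨1 / min (1 / R) (r0 / 4), fun γ hγ q hq1 hq2 => ?_⟩
  have hqU : q ∈ SD := lt_of_lt_of_le hr0 hq1
  have hq0 : 0 < hgt q := hqU
  have hO : γ⁻¹ w0 ∈ Orb := ⟨_, Gam.inv_mem hγ, rfl⟩
  have h1 := uval_lower hO hqU
  rw [← uval_act hγ.1 w0 hqU, uval_w0] at h1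
  have h2 : min (1 / R) (r0 / 4) ≤ 1 / hgt (act γ q) := by
    refine le_trans ?_ h1
    refine le_min ((min_le_left _ _).trans ?_) ((min_le_right _ _).trans (by linarith))
    exact one_div_le_one_div_of_le hq0 hq2
  have h3 : 0 < hgt (act γ q) := act_mem hγ.1 hqU
  rw [le_div_iff₀ hm0]
  rw [le_div_iff₀ h3] at h2
  linarith

theorem continuous_hgt : Continuous hgt := by
  unfold hgt
  fun_prop

theorem local_finite {p : Pt} (hp : p ∈ SD) (C a : ℝ) (ha : 0 < a) :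
    ∃ U ∈ 𝓝 p, U ⊆ SD ∧ {γ : Gam | ∃ q ∈ U, act γ q ∈ Sieg C a}.Finite := by
  have hp2 : 0 < hgt p := hp
  have hUo : IsOpen {q : Pt | ‖q.1‖ < ‖p.1‖ + 1 ∧ ‖q.2‖ < ‖p.2‖ + 1 ∧ hgt p / 2 < hgt q ∧
      hgt q < 2 * hgt p} := by
    have c1 : Continuous fun q : Pt => ‖q.1‖ := by fun_prop
    have c2 : Continuous fun q : Pt => ‖q.2‖ := by fun_prop
    exact (isOpen_lt c1 continuous_const).inter ((isOpen_lt c2 continuous_const).inter
      ((isOpen_lt continuous_const continuous_hgt).inter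
        (isOpen_lt continuous_hgt continuous_const)))
  have hpU : p ∈ {q : Pt | ‖q.1‖ < ‖p.1‖ + 1 ∧ ‖q.2‖ < ‖p.2‖ + 1 ∧ hgt p / 2 < hgt q ∧
      hgt q < 2 * hgt p} :=
    ⟨by linarith, by linarith, by linarith, by linarith⟩
  refine ⟨_, hUo.mem_nhds hpU, fun q hq => ?_, ?_⟩
  · have : hgt p / 2 < hgt q := hq.2.2.1
    show 0 < hgt q
    linarith
  have hr00 : 0 < hgt p / 2 := by positivity
  obtain ⟨H, hH⟩ := height_bound hr00 (show 0 < 2 * hgt p by positivity)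
  set K : ℝ := 1 + 2 * ((1 + (‖p.1‖ + 1) ^ 2 + (‖p.2‖ + 1) ^ 2) / (hgt p / 2)) with hKdef
  have hK0 : 0 ≤ K := by positivity
  obtain ⟨M, hM⟩ := Qf_bound' (C := C) (H := H) ha hK0
  have hfin := lat_finite M
  have hF := hfin.prod (hfin.prod hfin)
  refine Set.Finite.of_finite_image (f := fun γ : Gam => img (γ : V3 ≃ₗ[ℂ] V3))
    (hF.subset ?_) ?_
  · rintro _ ⟨γ, ⟨q, hq, hqS⟩, rfl⟩
    obtain ⟨hqa, hqb, hqc, hqd⟩ := hq
    have hqU : q ∈ SD := lt_trans hr00 hqc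
    have hq0 : 0 < hgt q := hqU
    have hγ := γ.2
    have hmain : ∀ x : V3, (herm x x).re ≤ 1 →
        ‖herm (vec q) x‖ ^ 2 ≤ 1 + (‖p.1‖ + 1) ^ 2 + (‖p.2‖ + 1) ^ 2 →
        ‖((γ : V3 ≃ₗ[ℂ] V3) x).1‖ ≤ M ∧ ‖((γ : V3 ≃ₗ[ℂ] V3) x).2.1‖ ≤ M ∧
          ‖((γ : V3 ≃ₗ[ℂ] V3) x).2.2‖ ≤ M := by
      intro x hx1 hx2
      refine hM (act γ q) _ hqS (hH _ hγ q hqc.le hqd.le) ?_
      rw [Qf_act hγ.1 hqU, Qf, uval]
      have : ‖herm (vec q) x‖ ^ 2 / hgt q ≤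
          (1 + (‖p.1‖ + 1) ^ 2 + (‖p.2‖ + 1) ^ 2) / (hgt p / 2) := by
        gcongr
      linarith
    obtain ⟨hm1, hm2, hm3⟩ := img_mem hγ
    have n1 : ‖q.1‖ ^ 2 ≤ (‖p.1‖ + 1) ^ 2 := by gcongr
    have n2 : ‖q.2‖ ^ 2 ≤ (‖p.2‖ + 1) ^ 2 := by gcongr
    have n3 : 0 ≤ (‖p.1‖ + 1) ^ 2 := by positivity
    have n4 : 0 ≤ (‖p.2‖ + 1) ^ 2 := by positivity
    refine ⟨⟨hm1, hmain _ ?_ ?_⟩, ⟨hm2, hmain _ ?_ ?_⟩, ⟨hm3, hmain _ ?_ ?_⟩⟩
    · simp [herm]
    · have : herm (vec q) (1, 0, 0) = 1 := by simp [herm, vec]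
      rw [this]
      simp only [norm_one, one_pow]
      linarith
    · simp [herm]
    · have : herm (vec q) (0, 1, 0) = q.2 := by simp [herm, vec]
      rw [this]
      linarith
    · simp [herm]
    · have : herm (vec q) (0, 0, 1) = q.1 := by simp [herm, vec]
      rw [this]
      linarith
  · intro γ _ δ _ h
    exact Subtype.ext (img_injective h)

/-! ### the partition of unity -/

theorem contDiff_vec : ContDiff ℝ 1 (vec : Pt → V3) :=
  contDiff_fst.prodMk (contDiff_snd.prodMk contDiff_const)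

/-- `act g` is smooth on the Siegel domain -/
theorem contDiffOn_act1 {g : V3 ≃ₗ[ℂ] V3} (hg : g ∈ UG) :
    ContDiffOn ℝ 1 (act g) SD := by
  have hlin : ContDiff ℝ 1 (fun x : V3 => g x) :=
    ((LinearMap.toContinuousLinearMap (g.toLinearMap.restrictScalars ℝ))).contDiff
  have h1 : ContDiff ℝ 1 (fun p => g (vec p)) := hlin.comp contDiff_vec
  have h2 : ContDiffOn ℝ 1 (fun p => (g (vec p)).2.2) SD :=
    ((contDiff_snd.comp contDiff_snd).comp h1).contDiffOn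
  have h3 : ContDiffOn ℝ 1 (fun p => (g (vec p)).1) SD := (contDiff_fst.comp h1).contDiffOn
  have h4 : ContDiffOn ℝ 1 (fun p => (g (vec p)).2.1) SD :=
    ((contDiff_fst.comp contDiff_snd).comp h1).contDiffOn
  have h5 : ContDiffOn ℝ 1 (fun p => ((g (vec p)).2.2)⁻¹) SD := h2.inv fun p hp => x3_ne hg hp
  have h6 := (h3.mul h5).prodMk (h4.mul h5)
  refine h6.congr fun p _ => ?_
  show ((g (vec p)).1 / (g (vec p)).2.2, (g (vec p)).2.1 / (g (vec p)).2.2) = _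
  rw [div_eq_mul_inv, div_eq_mul_inv]

theorem contDiff_hgt : ContDiff ℝ 1 hgt := by
  have h1 : ContDiff ℝ 1 (fun p : Pt => p.1.re) := Complex.reCLM.contDiff.comp contDiff_fst
  have h2 : ContDiff ℝ 1 (fun p : Pt => ‖p.2‖ ^ 2) := contDiff_snd.norm_sq ℝ
  exact ((contDiff_const.mul h1).add h2).neg

/-- smooth function, positive on `Sieg C a`, supported in `Sieg (C + 1) (a / 2)` -/
theorem exists_eta {C a : ℝ} (hC : 0 ≤ C) (ha : 0 < a) :
    ∃ η : Pt → ℝ, ContDiff ℝ 1 η ∧ (∀ p, 0 ≤ η p) ∧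
      (∀ p, p ∈ Sieg C a → 0 < η p) ∧ (∀ p, η p ≠ 0 → p ∈ Sieg (C + 1) (a / 2)) := by
  let f : ContDiffBump (0 : ℂ) := ⟨C + 1 / 2, C + 1, by linarith, by linarith⟩
  let f' : ContDiffBump (0 : ℝ) := ⟨C + 1 / 2, C + 1, by linarith, by linarith⟩
  refine ⟨fun p => f p.2 * f' p.1.im * Real.smoothTransition (hgt p - a / 2), ?_, ?_, ?_, ?_⟩
  · have h1 : ContDiff ℝ 1 (fun p : Pt => f p.2) := f.contDiff.comp contDiff_snd
    have h1' : ContDiff ℝ 1 (fun p : Pt => f' p.1.im) :=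
      f'.contDiff.comp (Complex.imCLM.contDiff.comp contDiff_fst)
    have h2 : ContDiff ℝ 1 (fun p : Pt => Real.smoothTransition (hgt p - a / 2)) :=
      Real.smoothTransition.contDiff.comp (contDiff_hgt.sub contDiff_const)
    exact (h1.mul h1').mul h2
  · intro p
    exact mul_nonneg (mul_nonneg f.nonneg f'.nonneg) (Real.smoothTransition.nonneg _)
  · rintro p ⟨hp1, hp2, hp3⟩
    apply mul_pos (mul_pos _ _)
    · apply Real.smoothTransition.pos_of_pos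
      linarith
    · apply f.pos_of_mem_ball
      rw [mem_ball_zero_iff]
      show ‖p.2‖ < C + 1
      linarith
    · apply f'.pos_of_mem_ball
      rw [mem_ball_zero_iff]
      show ‖p.1.im‖ < C + 1
      rw [Real.norm_eq_abs]
      linarith
  · intro p hp
    refine ⟨?_, ?_, ?_⟩
    · by_contra hc
      apply hp
      have : f p.2 = 0 := by
        apply f.zero_of_le_dist
        rw [dist_zero_right]
        show C + 1 ≤ ‖p.2‖
        linarith
      simp only [this, zero_mul]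
    · by_contra hc
      apply hp
      have : f' p.1.im = 0 := by
        apply f'.zero_of_le_dist
        rw [dist_zero_right, Real.norm_eq_abs]
        show C + 1 ≤ |p.1.im|
        linarith
      simp only [this, mul_zero, zero_mul]
    · by_contra hc
      apply hp
      have : Real.smoothTransition (hgt p - a / 2) = 0 :=
        Real.smoothTransition.zero_of_nonpos (by linarith)
      simp only [this, mul_zero]

theorem exists_kap {C a : ℝ} (ha : 0 < a) (hcov : Covers C a) :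
    ∃ (κ : Pt → ℝ) (C' a' : ℝ), Kap κ C' a' := by
  have hC : 0 ≤ C := by
    obtain ⟨γ, _, h1, _⟩ := hcov ((-1 : ℂ), (0 : ℂ)) (by
      show 0 < hgt _
      simp [hgt])
    exact (norm_nonneg _).trans h1
  obtain ⟨η, hηs, hη0, hηp, hηsupp⟩ := exists_eta hC ha
  have ha' : 0 < a / 2 := by positivity
  -- the sum
  set W : Pt → ℝ := fun p => ∑' γ : Gam, η (act γ p) with hW
  have hfin : ∀ p ∈ SD, ∃ U ∈ 𝓝 p, U ⊆ SD ∧ ∃ S : Finset Gam, ∀ q ∈ U, ∀ γ : Gam,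
      γ ∉ S → η (act γ q) = 0 := by
    intro p hp
    obtain ⟨U, hU, hUs, hf⟩ := local_finite hp (C + 1) (a / 2) ha'
    refine ⟨U, hU, hUs, hf.toFinset, fun q hq γ hγ => ?_⟩
    by_contra hc
    apply hγ
    rw [Set.Finite.mem_toFinset]
    exact ⟨q, hq, hηsupp _ hc⟩
  have hsum : ∀ p ∈ SD, Summable fun γ : Gam => η (act γ p) := by
    intro p hp
    obtain ⟨U, hU, _, S, hS⟩ := hfin p hp
    exact summable_of_ne_finset_zero (s := S) fun γ hγ => hS p (mem_of_mem_nhds hU) γ hγ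
  have hWpos : ∀ p ∈ SD, 0 < W p := by
    intro p hp
    obtain ⟨γ, hγ, h1⟩ := hcov p hp
    exact (hsum p hp).tsum_pos (fun δ => hη0 _) ⟨γ, hγ⟩ (hηp _ h1)
  have hWinv : ∀ p ∈ SD, ∀ γ : Gam, W (act γ p) = W p := by
    intro p hp γ
    show ∑' δ : Gam, η (act δ (act γ p)) = ∑' δ : Gam, η (act δ p)
    rw [← (Equiv.mulRight γ).tsum_eq (fun δ : Gam => η (act δ p))]
    congr 1
    funext δ
    rw [Equiv.coe_mulRight, Subgroup.coe_mul, act_mul _ γ.2.1 hp]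
  have hSDo : IsOpen SD := isOpen_lt continuous_const continuous_hgt
  have hWs : ContDiffOn ℝ 1 W SD := by
    intro p hp
    apply ContDiffAt.contDiffWithinAt
    obtain ⟨U, hU, hUs, S, hS⟩ := hfin p hp
    have h1 : W =ᶠ[𝓝 p] fun q => ∑ γ ∈ S, η (act γ q) := by
      filter_upwards [hU] with q hq
      exact tsum_eq_sum fun γ hγ => hS q hq γ hγ
    refine ContDiffAt.congr_of_eventuallyEq ?_ h1
    apply ContDiffAt.sum
    intro γ _
    exact hηs.contDiffAt.comp p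
      ((contDiffOn_act1 γ.2.1).contDiffAt (hSDo.mem_nhds hp))
  set κ : Pt → ℝ := fun p => η p / W p with hκ
  have hηz : ∀ p : Pt, hgt p < a / 2 → η p = 0 := by
    intro p hp
    by_contra hc
    have := (hηsupp p hc).2.2
    linarith
  refine ⟨κ, C + 1, a / 2, ha', ?_, ?_, ?_, ?_⟩
  · rw [contDiff_iff_contDiffAt]
    intro p
    by_cases hp : hgt p < a / 2
    · have h1 : κ =ᶠ[𝓝 p] fun _ => 0 := by
        have h2 : {q : Pt | hgt q < a / 2} ∈ 𝓝 p :=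
          (isOpen_lt continuous_hgt continuous_const).mem_nhds hp
        filter_upwards [h2] with q hq
        show η q / W q = 0
        rw [hηz q hq, zero_div]
      exact contDiffAt_const.congr_of_eventuallyEq h1
    · have hpU : p ∈ SD := by
        show 0 < hgt p
        linarith
      exact hηs.contDiffAt.div (hWs.contDiffAt (hSDo.mem_nhds hpU)) (hWpos p hpU).ne'
  · intro p
    by_cases hp : p ∈ SD
    · exact div_nonneg (hη0 p) (hWpos p hp).le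
    · have : η p = 0 := hηz p (by
        have : ¬ (0 < hgt p) := hp
        linarith)
      show 0 ≤ η p / W p
      rw [this, zero_div]
  · intro p hp
    apply hηsupp
    intro h
    apply hp
    show η p / W p = 0
    rw [h, zero_div]
  · intro p hp
    have h1 : (fun γ : Gam => κ (act γ p)) = fun γ : Gam => η (act γ p) / W p := by
      funext γ
      show η (act γ p) / W (act γ p) = _
      rw [hWinv p hp γ]
    rw [h1]
    have h2 := (hsum p hp).hasSum.div_const (W p)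
    rwa [show (∑' γ : Gam, η (act γ p)) / W p = 1 from div_self (hWpos p hp).ne'] at h2

end Pool.Agent.Helper76.Pic
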